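import Pool.Agent.H840.MX.Stm

/-! # MX S_VB1: existence of the valuation attached to an irreducible cubic form -/

set_option autoImplicit false

namespace Pool.Agent.H94.MX

open MvPolynomial

/-- the polynomial ring -/
abbrev S' := MvPolynomial (Fin 3) ℂ

theorem hc_mul (f g : S') (k : ℕ) : homogeneousComponent k (f * g) =
    ∑ p ∈ Finset.HasAntidiagonal.antidiagonal k, homogeneousComponent p.1 f * homogeneousComponent p.2 g := by
  induction f using MvPolynomial.induction_on' with
  | add f f' hf hf' =>
    rw [add_mul, map_add, hf, hf', ← Finset.sum_add_distrib]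
    refine Finset.sum_congr rfl fun p _ => ?_
    rw [map_add, add_mul]
  | monomial a c =>
    induction g using MvPolynomial.induction_on' with
    | add g g' hg hg' =>
      rw [mul_add, map_add, hg, hg', ← Finset.sum_add_distrib]
      refine Finset.sum_congr rfl fun p _ => ?_
      rw [map_add, mul_add]
    | monomial b d =>
      have h1 : ∀ (a : Fin 3 →₀ ℕ) (c : ℂ) (i : ℕ), homogeneousComponent i (monomial a c) =
          if i = a.degree then monomial a c else 0 := fun a c i =>
        homogeneousComponent_of_mem (isHomogeneous_monomial c rfl)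
      rw [monomial_mul, h1]
      simp only [h1]
      by_cases hk : k = (a + b).degree
      · rw [if_pos hk, Finset.sum_eq_single (a.degree, b.degree)]
        · simp only [if_true, monomial_mul]
        · rintro ⟨i, j⟩ hij hne
          by_cases hi : i = a.degree
          · by_cases hj : j = b.degree
            · exact absurd (by rw [hi, hj]) hne
            · simp only [hj, if_false, mul_zero]
          · simp only [hi, if_false, zero_mul]
        · intro h
          exfalso
          apply h
          rw [Finset.HasAntidiagonal.mem_antidiagonal, hk, map_add]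
      · rw [if_neg hk]
        symm
        apply Finset.sum_eq_zero
        rintro ⟨i, j⟩ hij
        by_cases hi : i = a.degree
        · by_cases hj : j = b.degree
          · exfalso
            apply hk
            rw [map_add, ← hi, ← hj]
            exact (Finset.HasAntidiagonal.mem_antidiagonal.1 hij).symm
          · simp only [hj, if_false, mul_zero]
        · simp only [hi, if_false, zero_mul]

/-- the valuation -/
noncomputable def vb (F f : S') : ℕ∞ :=
  ⨅ k : ℕ, ((k : ℕ∞) + emultiplicity F (homogeneousComponent k f))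

theorem le_vb (F f : S') (n : ℕ) :
    (n : ℕ∞) ≤ vb F f ↔ ∀ k, F ^ (n - k) ∣ homogeneousComponent k f := by
  unfold vb
  rw [le_iInf_iff]
  refine forall_congr' fun k => ?_
  rw [pow_dvd_iff_le_emultiplicity, ENat.natCast_sub, tsub_le_iff_left]

theorem vb_fin {F : S'} (hF : Irreducible F) {f : S'} (hf : f ≠ 0) : ∃ n : ℕ, vb F f = n ∧
    ∃ k ≤ n, (∀ i < k, F ^ (n + 1 - i) ∣ homogeneousComponent i f) ∧
      (∀ i, F ^ (n - i) ∣ homogeneousComponent i f) ∧
      ¬ F ^ (n + 1 - k) ∣ homogeneousComponent k f := by
  classical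
  obtain ⟨i, hi⟩ : ∃ i, homogeneousComponent i f ≠ 0 := by
    by_contra h
    push Not at h
    apply hf
    rw [← sum_homogeneousComponent f]
    exact Finset.sum_eq_zero fun i _ => h i
  have h1 : vb F f ≠ ⊤ := by
    have h2 : vb F f ≤ (i : ℕ∞) + emultiplicity F (homogeneousComponent i f) :=
      iInf_le _ i
    have h3 : emultiplicity F (homogeneousComponent i f) ≠ ⊤ :=
      finiteMultiplicity_iff_emultiplicity_ne_top.1
        (FiniteMultiplicity.of_not_isUnit hF.not_isUnit hi)
    intro h
    rw [h, top_le_iff] at h2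
    exact (WithTop.add_ne_top.2 ⟨ENat.natCast_ne_top i, h3⟩) h2
  obtain ⟨n, hn⟩ := ENat.ne_top_iff_exists.1 h1
  refine ⟨n, hn.symm, ?_⟩
  have h2 : ∀ i, F ^ (n - i) ∣ homogeneousComponent i f := (le_vb F f n).1 hn.le
  have h3 : ∃ i, ¬ F ^ (n + 1 - i) ∣ homogeneousComponent i f := by
    by_contra h
    push Not at h
    have h4 := (le_vb F f (n + 1)).2 h
    rw [← hn] at h4
    have : n + 1 ≤ n := by exact_mod_cast h4
    omega
  refine ⟨Nat.find h3, ?_, ?_, h2, Nat.find_spec h3⟩
  · by_contra h
    push Not at h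
    apply Nat.find_spec h3
    have : n + 1 - Nat.find h3 = 0 := by omega
    rw [this, pow_zero]
    exact one_dvd _
  · intro i hi
    have := Nat.find_min h3 hi
    push Not at this
    exact this

theorem vb_mul {F : S'} (hF : Irreducible F) (f g : S') : vb F (f * g) = vb F f + vb F g := by
  have hz : vb F 0 = ⊤ := by
    rw [← top_le_iff, ← ENat.forall_natCast_le_iff_le]
    intro n _
    rw [le_vb]
    intro k
    rw [map_zero]
    exact dvd_zero _
  by_cases hf : f = 0
  · rw [hf, zero_mul, hz, top_add]
  by_cases hg : g = 0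
  · rw [hg, mul_zero, hz, add_top]
  obtain ⟨n, hn, k, hk, hk1, hk2, hk3⟩ := vb_fin hF hf
  obtain ⟨m, hm, l, hl, hl1, hl2, hl3⟩ := vb_fin hF hg
  rw [hn, hm]
  have hp : Prime F := hF.prime
  apply le_antisymm
  · by_contra hcon
    push Not at hcon
    have h1 : ((n + m + 1 : ℕ) : ℕ∞) ≤ vb F (f * g) := by
      have := Order.add_one_le_of_lt hcon
      push_cast
      exact this
    have h2 := (le_vb F (f * g) (n + m + 1)).1 h1 (k + l)
    rw [hc_mul, ← Finset.add_sum_erase _ _ (Finset.HasAntidiagonal.mem_antidiagonal.2 rfl :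
      (k, l) ∈ Finset.HasAntidiagonal.antidiagonal (k + l))] at h2
    have h3 : F ^ (n + m + 1 - (k + l)) ∣ ∑ p ∈ (Finset.HasAntidiagonal.antidiagonal (k + l)).erase (k, l),
        homogeneousComponent p.1 f * homogeneousComponent p.2 g := by
      apply Finset.dvd_sum
      rintro ⟨i, j⟩ hij
      obtain ⟨hne, hij⟩ := Finset.mem_erase.1 hij
      have hij := Finset.HasAntidiagonal.mem_antidiagonal.1 hij
      simp only at hij
      have hlt : i < k ∨ j < l := by
        by_contra h
        push Not at h
        apply hne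
        have h1 : i = k := by omega
        have h2 : j = l := by omega
        rw [h1, h2]
      rcases hlt with hlt | hlt
      · refine dvd_trans (pow_dvd_pow F ?_) (show F ^ ((n + 1 - i) + (m - j)) ∣ _ from ?_)
        · omega
        · rw [pow_add]
          exact mul_dvd_mul (hk1 i hlt) (hl2 j)
      · refine dvd_trans (pow_dvd_pow F ?_) (show F ^ ((n - i) + (m + 1 - j)) ∣ _ from ?_)
        · omega
        · rw [pow_add]
          exact mul_dvd_mul (hk2 i) (hl1 j hlt)
    rw [dvd_add_left h3] at h2
    obtain ⟨x, hx⟩ := hk2 k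
    obtain ⟨y, hy⟩ := hl2 l
    have hx' : ¬ F ∣ x := by
      rintro ⟨z, rfl⟩
      apply hk3
      refine ⟨z, ?_⟩
      have : n + 1 - k = (n - k) + 1 := by omega
      rw [hx, this, pow_succ, mul_assoc]
    have hy' : ¬ F ∣ y := by
      rintro ⟨z, rfl⟩
      apply hl3
      refine ⟨z, ?_⟩
      have : m + 1 - l = (m - l) + 1 := by omega
      rw [hy, this, pow_succ, mul_assoc]
    have h4 : n + m + 1 - (k + l) = ((n - k) + (m - l)) + 1 := by omega
    have h5 : F ^ (n - k) * x * (F ^ (m - l) * y) = F ^ ((n - k) + (m - l)) * (x * y) := by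
      rw [pow_add]; ring
    rw [h4, hx, hy, h5, pow_succ] at h2
    have h6 := (mul_dvd_mul_iff_left (pow_ne_zero _ hF.ne_zero)).1 h2
    rcases hp.dvd_or_dvd h6 with h | h
    · exact hx' h
    · exact hy' h
  · rw [← Nat.cast_add, le_vb]
    intro c
    rw [hc_mul]
    apply Finset.dvd_sum
    rintro ⟨i, j⟩ hij
    have hij := Finset.HasAntidiagonal.mem_antidiagonal.1 hij
    simp only at hij
    refine dvd_trans (pow_dvd_pow F ?_) (show F ^ ((n - i) + (m - j)) ∣ _ from ?_)
    · omega
    · rw [pow_add]
      exact mul_dvd_mul (hk2 i) (hl2 j)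

theorem vb_exists (F : S') (hF : Irreducible F) : ∃ v : AddValuation S' ℕ∞,
    ∀ (n : ℕ) (f : S'), (n : ℕ∞) ≤ v f ↔ ∀ k, F ^ (n - k) ∣ homogeneousComponent k f := by
  refine ⟨AddValuation.of (vb F) ?_ ?_ ?_ (vb_mul hF), ?_⟩
  · rw [← top_le_iff, ← ENat.forall_natCast_le_iff_le]
    intro n _
    rw [le_vb]
    intro k
    rw [map_zero]
    exact dvd_zero _
  · by_contra h
    have h1 : ((1 : ℕ) : ℕ∞) ≤ vb F 1 := by
      rw [Nat.cast_one]
      exact Order.one_le_iff_ne_zero.2 h
    have h2 := (le_vb F 1 1).1 h1 0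
    rw [homogeneousComponent_zero, Nat.sub_zero, pow_one] at h2
    apply hF.not_isUnit
    apply isUnit_of_dvd_one
    simpa using h2
  · intro f g
    rw [← ENat.forall_natCast_le_iff_le]
    intro n hn
    rw [le_min_iff, le_vb, le_vb] at hn
    rw [le_vb]
    intro k
    rw [map_add]
    exact dvd_add (hn.1 k) (hn.2 k)
  · intro n f
    rw [AddValuation.of_apply]
    exact le_vb F f n

theorem VB1 : Pool.Agent.H840.MX.S_VB1 := fun F _ hF => vb_exists F hF

end Pool.Agent.H94.MX
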